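import Pool.Agent.Helper4.HZ.Goals

/-!
# Project HZ, packet CMB: combinatorics of the product of the orders
-/

namespace Pool.Agent.Helper51.HZ

open Pool.Agent.Helper4.HZ

theorem pow_mem_of {S : Submonoid ℕ} {v : ℕ} (h2 : v ^ 2 ∈ S) (h3 : v ^ 3 ∈ S) {m : ℕ}
    (hm : 2 ≤ m) : v ^ m ∈ S := by
  rcases Nat.even_or_odd' m with ⟨a, rfl | rfl⟩
  · rw [pow_mul]
    exact S.pow_mem h2 a
  · obtain ⟨b, rfl⟩ : ∃ b, a = b + 1 := ⟨a - 1, by omega⟩
    have : v ^ (2 * (b + 1) + 1) = (v ^ 2) ^ b * v ^ 3 := by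
      rw [← pow_mul, ← pow_add]
      congr 1
    rw [this]
    exact S.mul_mem (S.pow_mem h2 b) h3

theorem CMB_holds : S_CMB := by
  classical
  intro S J t k hk h
  rw [← Finset.prod_fiberwise_of_maps_to (s := J) (t := J.image t) (g := t)
    (fun j hj => Finset.mem_image_of_mem t hj)]
  refine S.prod_mem fun v hv => ?_
  obtain ⟨j, hj, rfl⟩ := Finset.mem_image.1 hv
  have h1 : ∏ i ∈ J.filter (fun i => t i = t j), t i ^ k i =
      t j ^ ∑ i ∈ J.filter (fun i => t i = t j), k i := by
    rw [← Finset.prod_pow_eq_pow_sum]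
    exact Finset.prod_congr rfl fun i hi => by rw [(Finset.mem_filter.1 hi).2]
  rw [h1]
  rcases h j hj with hS | ⟨h2, h3, hor⟩
  · exact S.pow_mem hS _
  · refine pow_mem_of h2 h3 ?_
    have hjm : j ∈ J.filter (fun i => t i = t j) := Finset.mem_filter.2 ⟨hj, rfl⟩
    rcases hor with h4 | ⟨j', hj', hne, ht⟩
    · exact h4.trans (Finset.single_le_sum (f := k) (fun _ _ => Nat.zero_le _) hjm)
    · have hj'm : j' ∈ J.filter (fun i => t i = t j) := Finset.mem_filter.2 ⟨hj', ht⟩
      have hsub : ({j, j'} : Finset ℕ) ⊆ J.filter (fun i => t i = t j) := by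
        intro i hi
        rcases Finset.mem_insert.1 hi with rfl | hi
        · exact hjm
        · rw [Finset.mem_singleton] at hi
          rw [hi]
          exact hj'm
      have h5 := Finset.sum_le_sum_of_subset (f := k) hsub
      rw [Finset.sum_pair (Ne.symm hne)] at h5
      have := hk j hj
      have := hk j' hj'
      omega

end Pool.Agent.Helper51.HZ
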